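import Pool.Agent.Helper41.LD5.Defs
import Pool.Agent.Helper46.LD4.STA

/-!
# Project LD5, block STA: start of a stage, the sums on a good window (general sequences)
-/

set_option autoImplicit false

namespace Pool.Agent.Helper46.LD5

open Set MeasureTheory Filter Topology
open Pool.Agent.Helper41.LD (av var haar)
open Pool.Agent.Helper41.LD3 (Cst lamG lamG_pos lamG_mul_le)
open Pool.Agent.Helper41.LD4
open Pool.Agent.Helper41.LD5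
open Pool.Agent.Helper44.LD4 (sum_sub_M)
open Pool.Agent.Helper17.LD4 (PP_nums sys_cls17)
open Pool.Agent.Helper46.LD4 (w_Cb_le Cb_le_G Pot_nonneg M_of_Pot pot_start)

variable {κ : ℕ} {τ : ℕ → ℝ} {ty : ℕ → ℕ × ℕ × ℕ} {g Q R CF DF Cb m Cq G K : ℕ} {U : ℕ → ℕ → ℝ → ℝ} {T : ℕ → ℝ → ℕ}

/-- constant integer parts give constant functionals -/
theorem GU_NB46 (H : Cst4 τ ty g Q R CF DF Cb m Cq G) (hK : 1 ≤ K) {n r : ℕ} {a ℓ : ℝ} {p : Σ _ : ℕ, ℕ × ℕ × ℕ × ℕ} (hp : p ∈ PP ty g Q K)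
    (h : NBg (U p.1) n r (sysN (ty (p.1 / Q)).2.1 K) a ℓ) : NB (GU ty Q U p) n r a ℓ := by
  obtain ⟨h1, h2⟩ := Finset.mem_sigma.1 hp
  have S := sys_cls17 H hK (Finset.mem_range.1 h1)
  exact fun j hj x hx => (S.fn _ h2).grid _ _ (h j hj x hx)

theorem num_Lam (B : Num κ R DF Cb m G K) : 1 ≤ K ^ (2 * κ + 1) ∧ R * K ≤ K ^ (2 * κ + 1) ∧ K ≤ K ^ (2 * κ + 1) := by
  have h2 := B.hK2
  refine ⟨Nat.pow_pos (by omega), ?_, Nat.le_self_pow (by omega) K⟩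
  refine le_trans ?_ B.hR2
  exact Nat.le_self_pow (by norm_num) _

/-- the start of a stage: every window is good -/
theorem stage_start5 (H : Cst4 τ ty g Q R CF DF Cb m Cq G) (B : Num κ R DF Cb m G K) {ℓst a : ℝ} (hℓ : 0 < ℓst)
    (hT : ∀ s < g * Q, T s ℓst = 0) (hWd : WdU ty τ g Q m U T K a ℓst) : GoodU ty g Q R G κ U T K a ℓst := by
  obtain ⟨hL1, hRL, hKL⟩ := num_Lam B
  obtain ⟨hmG, hCFG, hCbG, hG1, hG9⟩ := H.G_ge
  have hK2 := B.hK2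
  have hK1 : 1 ≤ K := by omega
  have hKr : (1 : ℝ) ≤ K := by exact_mod_cast hK1
  have hGr : (1 : ℝ) ≤ G := by exact_mod_cast hG1
  have hΛr : (1 : ℝ) ≤ (K : ℝ) ^ (2 * κ + 1) := one_le_pow₀ hKr
  refine ⟨fun s hs j hj => ?_, ?_⟩
  · rw [hT s hs] at hj
    omega
  obtain ⟨-, hcard, -, hP⟩ := PP_nums H hK1
  have hlam := lamG_pos hG1 hK1 hΛr
  have h1 : ∀ p ∈ PP ty g Q K, Pot (GU ty Q U p) (T p.1 ℓst) (R * K) (lamG G K ((K : ℝ) ^ (2 * κ + 1))) a ℓst ≤ 2 := by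
    intro p hp
    obtain ⟨hs, hv0, hv1, -⟩ := hP p hp
    have hv : 0 ≤ sysv (ty (p.1 / Q)).2.1 p.2 := le_trans (by positivity) hv0
    have hw := hWd p hp a ℓst hℓ le_rfl le_rfl
    rw [hT _ hs] at hw ⊢
    refine pot_start hw hlam.le (lamG_mul_le hG1 hK1 hΛr ?_)
    have h2 := w_Cb_le H (Cst.idx_lt hs) hv1
    have h3 : ((Cb * (3 * m ^ 2) : ℕ) : ℝ) ≤ G := by exact_mod_cast Cb_le_G H
    have h4 : (G : ℝ) * 1 ≤ G * (K * (K : ℝ) ^ (2 * κ + 1)) :=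
      mul_le_mul_of_nonneg_left (one_le_mul_of_one_le_of_one_le hKr hΛr) (by linarith)
    have h5 : 4096 * (G : ℝ) * K * (K : ℝ) ^ (2 * κ + 1) = 4096 * (G * (K * (K : ℝ) ^ (2 * κ + 1))) := by ring
    rw [h5]
    linarith
  refine (Finset.sum_le_sum h1).trans ?_
  rw [Finset.sum_const, nsmul_eq_mul]
  have h2 : (g : ℝ) * Q * m * 2 ≤ 2 ^ K := by
    have h3 : g * Q * m * 2 ≤ 2 ^ K := by
      have h4 : 8192 * G * K * K ^ (2 * κ + 1) ≤ 2 ^ K := B.hbig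
      have h5 : G ≤ 8192 * G * K * K ^ (2 * κ + 1) := by
        calc G = G * 1 := (mul_one G).symm
          _ ≤ G * (8192 * (K * K ^ (2 * κ + 1))) := by
              refine Nat.mul_le_mul_left _ ?_
              have : 1 ≤ K * K ^ (2 * κ + 1) := Nat.mul_pos hK1 hL1
              omega
          _ = 8192 * G * K * K ^ (2 * κ + 1) := by ring
      have h6 : g * Q * m * 2 ≤ g * Q * (9 * m ^ 5) := by
        rw [mul_assoc (g * Q)]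
        refine Nat.mul_le_mul_left _ ?_
        have h7 : m ≤ m ^ 5 := Nat.le_self_pow (by norm_num) m
        omega
      exact h6.trans (hG9.trans (h5.trans h4))
    exact_mod_cast h3
  calc ((PP ty g Q K).card : ℝ) * 2 ≤ (g * Q * m * 2 ^ K) * 2 := mul_le_mul_of_nonneg_right hcard (by norm_num)
    _ = g * Q * m * 2 * 2 ^ K := by ring
    _ ≤ 2 ^ K * 2 ^ K := mul_le_mul_of_nonneg_right h2 (by positivity)
    _ = 4 ^ K := by rw [← mul_pow]; norm_num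
    _ ≤ 16 ^ K := pow_le_pow_left₀ (by norm_num) (by norm_num) K

/-- the sums of the test functions on a good window -/
theorem stage_sums5 (H : Cst4 τ ty g Q R CF DF Cb m Cq G) (B : Num κ R DF Cb m G K) {ℓ a : ℝ} (hℓ : 0 < ℓ) (hWd : WdU ty τ g Q m U T K a ℓ)
    (hgood : GoodU ty g Q R G κ U T K a ℓ) {x : ℝ} (hx : x ∈ Icc a (a + ℓ)) {s : ℕ} (hs : s < g * Q)
    {q : ℕ × ℕ × ℕ × ℕ} (hq : q ∈ sysI (ty (s / Q)).2.1 K) :
    |∑ j ∈ Finset.range (T s ℓ), sysf (ty (s / Q)).2.1 q (U s j x)| ≤ 33000 * G * (K : ℝ) ^ (2 * κ + 3) := by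
  obtain ⟨hL1, hRL, hKL⟩ := num_Lam B
  obtain ⟨hmG, hCFG, hCbG, hG1, hG9⟩ := H.G_ge
  have hK2 := B.hK2
  have hK1 : 1 ≤ K := by omega
  have hKr : (1 : ℝ) ≤ K := by exact_mod_cast hK1
  have hGr : (1 : ℝ) ≤ G := by exact_mod_cast hG1
  have hΛr : (1 : ℝ) ≤ (K : ℝ) ^ (2 * κ + 1) := one_le_pow₀ hKr
  have hlam := lamG_pos hG1 hK1 hΛr
  obtain ⟨-, -, -, hP⟩ := PP_nums H hK1
  have hp : (⟨s, q⟩ : Σ _ : ℕ, ℕ × ℕ × ℕ × ℕ) ∈ PP ty g Q K := by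
    unfold PP
    rw [Finset.mem_sigma]
    exact ⟨Finset.mem_range.2 hs, hq⟩
  obtain ⟨-, hv0, hv1, -⟩ := hP _ hp
  simp only at hv0 hv1
  have hw := hWd _ hp a ℓ hℓ le_rfl le_rfl
  have hNB := GU_NB46 H hK1 hp (hgood.1 s hs)
  have h1 := sum_sub_M hw hNB hx
  have hPot : Pot (GU ty Q U ⟨s, q⟩) (T s ℓ) (R * K) (lamG G K ((K : ℝ) ^ (2 * κ + 1))) a ℓ ≤ 16 ^ K :=
    (Finset.single_le_sum (f := fun p : (Σ _ : ℕ, ℕ × ℕ × ℕ × ℕ) =>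
      Pot (GU ty Q U p) (T p.1 ℓ) (R * K) (lamG G K ((K : ℝ) ^ (2 * κ + 1))) a ℓ)
      (fun p _ => Pot_nonneg _ _ _ _ _ hℓ) hp).trans hgood.2
  have h2 := M_of_Pot hℓ hlam hPot
  have h3 := w_Cb_le H (Cst.idx_lt hs) hv1
  have h4 : ((Cb * (3 * m ^ 2) : ℕ) : ℝ) ≤ K := by exact_mod_cast B.hCbK
  simp only at h1
  have i2 : (3 * (K : ℝ) + 1) / lamG G K ((K : ℝ) ^ (2 * κ + 1)) ≤ 32768 * (G * (K : ℝ) ^ (2 * κ + 3)) := by
    rw [div_eq_mul_one_div]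
    have i1 : 1 / lamG G K ((K : ℝ) ^ (2 * κ + 1)) = 8192 * G * K * (K : ℝ) ^ (2 * κ + 1) := by unfold lamG; rw [one_div_one_div]
    rw [i1]
    calc (3 * (K : ℝ) + 1) * (8192 * G * K * (K : ℝ) ^ (2 * κ + 1)) ≤ (4 * K) * (8192 * G * K * (K : ℝ) ^ (2 * κ + 1)) := by gcongr; linarith
      _ = 32768 * (G * (K : ℝ) ^ (2 * κ + 3)) := by ring
  have i3 : ((R * K : ℕ) : ℝ) ≤ (K : ℝ) ^ (2 * κ + 3) := by
    have h5 : R * K ≤ K ^ (2 * κ + 3) := hRL.trans (Nat.pow_le_pow_right hK1 (by omega))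
    exact_mod_cast h5
  have i4 : (K : ℝ) ≤ (K : ℝ) ^ (2 * κ + 3) := by
    have h5 : K ≤ K ^ (2 * κ + 3) := Nat.le_self_pow (by omega) K
    exact_mod_cast h5
  have i5 : (K : ℝ) ^ (2 * κ + 3) ≤ G * (K : ℝ) ^ (2 * κ + 3) := le_mul_of_one_le_left (by positivity) hGr
  have h6 : ∑ j ∈ Finset.range (T s ℓ), sysf (ty (s / Q)).2.1 q (U s j x) =
      (∑ j ∈ Finset.range (T s ℓ), GU ty Q U ⟨s, q⟩ j x - M (GU ty Q U ⟨s, q⟩) a ℓ) +
        M (GU ty Q U ⟨s, q⟩) a ℓ := by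
    rw [sub_add_cancel]
    rfl
  rw [h6]
  refine (abs_add_le _ _).trans ?_
  have h7 : 33000 * (G : ℝ) * (K : ℝ) ^ (2 * κ + 3) = 33000 * (G * (K : ℝ) ^ (2 * κ + 3)) := by ring
  rw [h7]
  linarith

end Pool.Agent.Helper46.LD5
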