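import Pool.Agent.Helper41.LD5.Defs2
import Pool.Agent.Helper94.LD5.COR1

/-!
# Project LD5, block PAIR_SAME: the same power twice
-/

set_option autoImplicit false

namespace Pool.Agent.Helper46.LD5

open Set MeasureTheory Filter Topology
open Pool.Agent.Helper41.LD (av var haar)
open Pool.Agent.Helper41.LD4
open Pool.Agent.Helper41.LD5

theorem fp_pos46 {A₀ : ℝ} {P m : ℕ} {x : ℝ} (hA : 0 < A₀) (hP : 1 ≤ P) (hm : 1 ≤ m) (hx : 0 < x) : 0 < fp A₀ P m x := by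
  unfold fp
  have h1 : (0 : ℝ) < P := by exact_mod_cast hP
  have h2 : (0 : ℝ) < m := by exact_mod_cast hm
  have h3 : 0 < x ^ ((m : ℝ) / P - 1) := Real.rpow_pos_of_pos hx _
  positivity

theorem pwf_meas46 (A₀ : ℝ) (cp : ℝ → ℝ) (P m : ℕ) : Measurable (pwf A₀ cp P m) := by
  unfold pwf
  exact ((measurable_id.pow_const _).const_mul _).add_const _

variable {F : Fam} {κ D K : ℕ} {a₀ ℓst a ℓ : ℝ} {N₀ N₀' m₁ m₂ : ℕ} {w w' : ℝ} {f f' : ℝ → ℝ}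

/-- the length of the window is small -/
theorem win_sm (S : F.St κ D K a₀ ℓst) (h1 : a₀ ≤ a) (h2 : a + ℓ ≤ a₀ + ℓst) : ℓ * 2 ^ (K ^ (2 * κ + 2)) ≤ 1 := by
  have h3 : ℓ ≤ ℓst := by linarith
  exact (mul_le_mul_of_nonneg_right h3 (by positivity)).trans S.sm

/-- the size of a test -/
theorem test_sm {v : ℝ} (h : v ≤ 2 * (1 / 2) ^ (12 * K) * 2 ^ (K ^ (2 * κ + 1))) (hK : 1 ≤ K) : v ≤ 2 ^ (K ^ (2 * κ + 1) + 30 * K) := by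
  refine h.trans ?_
  generalize K ^ (2 * κ + 1) = n
  rw [pow_add, mul_comm ((2 : ℝ) ^ n) ((2 : ℝ) ^ (30 * K))]
  refine mul_le_mul_of_nonneg_right ?_ (by positivity)
  have h1 : (2 : ℝ) * (1 / 2) ^ (12 * K) ≤ 2 * (1 / 2) ^ 1 :=
    mul_le_mul_of_nonneg_left (pow_le_pow_of_le_one (by norm_num) (by norm_num) (by omega)) (by norm_num)
  have h2 : (1 : ℝ) ≤ 2 ^ (30 * K) := one_le_pow₀ (by norm_num)
  norm_num at h1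
  linarith

/-- PAIR_SAME from `pwf_lin` -/
theorem pair_same_of
    (pwf_lin : ∀ {F : Fam} {κ K : ℕ} {a ℓ : ℝ} {m : ℕ}, F.Ok → 1 ≤ κ → 100 ≤ K → F.P ≤ m → m ≤ 2 ^ (3 * K) → F.x₁ ≤ a → 0 < ℓ →
      ℓ * 2 ^ (K ^ (2 * κ + 2)) ≤ 1 → fp F.A₀ F.P m a * ℓ ≤ 2 ^ (K ^ (2 * κ + 1) + 30 * K) →
      ∀ x ∈ Icc a (a + ℓ), |pwf F.A₀ F.cp F.P m x - (fp F.A₀ F.P m a * x + (pwf F.A₀ F.cp F.P m a - fp F.A₀ F.P m a * a))| ≤ (1 / 2) ^ (16 * K))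
    (hF : F.Ok) (hκ : 1 ≤ κ) (B : F.Big κ D K) (S : F.St κ D K a₀ ℓst) (hℓ : 0 < ℓ) (h1 : a₀ ≤ a) (h2 : a + ℓ ≤ a₀ + ℓst)
    (hf : Fn N₀ m₁ w f) (hf' : Fn N₀' m₂ w' f') (hN : 1 ≤ N₀) (hN' : 1 ≤ N₀') (hN2 : N₀ ≤ F.m * 2 ^ K) (hN2' : N₀' ≤ F.m * 2 ^ K) {m : ℕ}
    (hm : 2 * F.P ≤ m) (hm2 : m ≤ 2 ^ (3 * K)) (htest : (2 : ℝ) ^ (24 * K) ≤ fp F.A₀ F.P m a * ℓ)
    (htest2 : fp F.A₀ F.P m a * ℓ ≤ 2 * (1 / 2) ^ (12 * K) * 2 ^ (K ^ (2 * κ + 1))) :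
    |av (fun x => f (pwf F.A₀ F.cp F.P m x) * f' (pwf F.A₀ F.cp F.P m x)) a ℓ - ∫ t in (0 : ℝ)..1, f t * f' t| ≤
      6 * (F.m : ℝ) ^ 2 * (1 / 2) ^ (12 * K) := by
  have hP := hF.hP
  have hx1 := hF.h1
  have ha1 : F.x₁ ≤ a := S.lo.trans h1
  have ha0 : 0 < a := by linarith
  have hK := B.hK
  have hlin := pwf_lin (F := F) (m := m) hF hκ hK (by omega) hm2 ha1 hℓ (win_sm S h1 h2) (test_sm htest2 (by omega))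
  refine Pool.Agent.Helper94.LD5.corr_same5 hF.m12 hf hf' hN hN' hN2 hN2' (fp_pos46 hF.hA hP (by omega) ha0) hℓ ?_
    (pwf_meas46 _ _ _ _) hlin
  refine le_trans ?_ htest
  exact pow_le_pow_right₀ (by norm_num) (by omega)

end Pool.Agent.Helper46.LD5
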