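import Pool.Agent.Helper46.LD5.SAME
import Pool.Agent.Helper8.LD5.LIN

/-!
# Project LD5, block PAIR_SAME without hypotheses
-/

set_option autoImplicit false

namespace Pool.Agent.Helper46.LD5

open Set MeasureTheory Filter Topology
open Pool.Agent.Helper41.LD (av var haar)
open Pool.Agent.Helper41.LD4
open Pool.Agent.Helper41.LD5

variable {F : Fam} {κ D K : ℕ} {a₀ ℓst a ℓ : ℝ} {N₀ N₀' m₁ m₂ : ℕ} {w w' : ℝ} {f f' : ℝ → ℝ}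

/-- PAIR_SAME: the same power -/
theorem pair_same (hF : F.Ok) (hκ : 1 ≤ κ) (B : F.Big κ D K) (S : F.St κ D K a₀ ℓst) (hℓ : 0 < ℓ) (h1 : a₀ ≤ a) (h2 : a + ℓ ≤ a₀ + ℓst)
    (hf : Fn N₀ m₁ w f) (hf' : Fn N₀' m₂ w' f') (hN : 1 ≤ N₀) (hN' : 1 ≤ N₀') (hN2 : N₀ ≤ F.m * 2 ^ K) (hN2' : N₀' ≤ F.m * 2 ^ K) {m : ℕ}
    (hm : 2 * F.P ≤ m) (hm2 : m ≤ 2 ^ (3 * K)) (htest : (2 : ℝ) ^ (24 * K) ≤ fp F.A₀ F.P m a * ℓ)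
    (htest2 : fp F.A₀ F.P m a * ℓ ≤ 2 * (1 / 2) ^ (12 * K) * 2 ^ (K ^ (2 * κ + 1))) :
    |av (fun x => f (pwf F.A₀ F.cp F.P m x) * f' (pwf F.A₀ F.cp F.P m x)) a ℓ - ∫ t in (0 : ℝ)..1, f t * f' t| ≤
      6 * (F.m : ℝ) ^ 2 * (1 / 2) ^ (12 * K) :=
  pair_same_of (fun hF hκ hK hm hm2 ha hℓ hsm hV => Pool.Agent.Helper8.LD5.pwf_lin hF hκ hK hm hm2 ha hℓ hsm hV)
    hF hκ B S hℓ h1 h2 hf hf' hN hN' hN2 hN2' hm hm2 htest htest2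

end Pool.Agent.Helper46.LD5
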